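import Pool.Agent.H589R2.OV.Restrict

/-!
# The Orthogonal Vectors hypothesis holds for randomized monotone circuits

No family of (randomized) monotone circuits with `n ^ (a / b) * poly(d)` AND gates, `a / b < 2`,
solves Orthogonal Vectors, already in dimension `d = O(log n)`.
-/

namespace Pool.Agent.Results.MP_0f984e_lc.MonotoneOV

open Pool.Agent.H589R2.OV Filter Topology

theorem pow_half (Q : ℕ) (hQ : 1 ≤ Q) (k : ℕ) : (1 - 1 / (Q : ℝ)) ^ (Q * k) ≤ (1 / 2 : ℝ) ^ k := by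
  have hQ' : (0 : ℝ) < Q := by exact_mod_cast hQ
  have h0 : (0 : ℝ) ≤ 1 - 1 / (Q : ℝ) := by
    rw [sub_nonneg, div_le_one hQ']; exact_mod_cast hQ
  rw [pow_mul]
  refine pow_le_pow_left₀ (pow_nonneg h0 _) ?_ k
  have h1 : 1 - 1 / (Q : ℝ) ≤ Real.exp (-(1 / (Q : ℝ))) := Real.one_sub_le_exp_neg _
  calc (1 - 1 / (Q : ℝ)) ^ Q ≤ (Real.exp (-(1 / (Q : ℝ)))) ^ Q := pow_le_pow_left₀ h0 h1 Q
    _ = Real.exp (-1) := by
      rw [← Real.exp_nat_mul]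
      congr 1
      field_simp
    _ ≤ 1 / 2 := by
      have := Real.exp_neg_one_lt_d9
      linarith

/-- The bound on the number of AND gates, at a fixed exponent below two. -/
theorem main (a b : ℕ) (hab : a < 2 * b) :
    ∃ K N : ℕ, ∀ n ≥ N, ∀ D ≥ K * (Nat.log 2 n + 1), ∀ r > 0, ∀ C : Fin r → Circ n D,
      (∀ u, numAnd (C u) ^ b ≤ n ^ a) →
      ∃ A B : Fin n → Fin D → Bool, Function.Injective A ∧ Function.Injective B ∧
        r < 3 * ({u | ¬ (accepts (C u) A B ↔ OVyes A B)} : Set (Fin r)).ncard := by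
  have hb : 1 ≤ b := by omega
  have hb' : (1 : ℝ) ≤ b := by exact_mod_cast hb
  -- the number ρ
  obtain ⟨ρ, hρ0, hρ1, hρ⟩ : ∃ ρ : ℝ, 0 < ρ ∧ ρ < 1 ∧ ρ ^ (2 * b) = 1 / 2 := by
    refine ⟨(1 / 2 : ℝ) ^ ((1 : ℝ) / (2 * b : ℕ)), ?_, ?_, ?_⟩
    · exact Real.rpow_pos_of_pos (by norm_num) _
    · apply Real.rpow_lt_one (by norm_num) (by norm_num)
      positivity
    · rw [← Real.rpow_natCast, ← Real.rpow_mul (by norm_num)]
      rw [one_div_mul_cancel (by positivity), Real.rpow_one]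
  have habs : |ρ| < 1 := by rw [abs_of_pos hρ0]; exact hρ1
  have hev1 : ∀ᶠ L : ℕ in atTop, ρ ^ L < 1 / 100000 := by
    have h := tendsto_pow_const_mul_const_pow_of_abs_lt_one 0 habs
    have h2 := h.eventually (gt_mem_nhds (show (0 : ℝ) < 1 / 100000 by norm_num))
    refine h2.mono (fun L hL => ?_)
    simpa using hL
  have hev2 : ∀ᶠ L : ℕ in atTop, (L : ℝ) ^ 2 * ρ ^ L < 1 / 100000 := by
    have h := tendsto_pow_const_mul_const_pow_of_abs_lt_one 2 habs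
    exact h.eventually (gt_mem_nhds (show (0 : ℝ) < 1 / 100000 by norm_num))
  obtain ⟨L0, hL0⟩ := Filter.eventually_atTop.1 (hev1.and hev2)
  refine ⟨768 * b ^ 2 + 2, 2 ^ (L0 + 4), ?_⟩
  intro n hn D hD r hr C hC
  have hn1 : 1 ≤ n := le_trans Nat.one_le_two_pow hn
  obtain ⟨L, hL⟩ : ∃ L, L = Nat.log 2 n + 1 := ⟨_, rfl⟩
  rw [← hL] at hD
  have hLow : 2 ^ (L - 1) ≤ n := by
    rw [hL, Nat.add_sub_cancel]
    exact Nat.pow_log_le_self 2 (by omega)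
  have hUp : n < 2 ^ L := by
    rw [hL]; exact Nat.lt_pow_succ_log_self (by norm_num) _
  have hL4 : L0 + 4 ≤ L := by
    have h1 : 2 ^ (L0 + 4) < 2 ^ L := lt_of_le_of_lt hn hUp
    exact ((Nat.pow_lt_pow_iff_right (by norm_num)).1 h1).le
  have h2n : 2 ^ L ≤ 2 * n := by
    have : 2 ^ L = 2 * 2 ^ (L - 1) := by
      rw [← pow_succ', Nat.sub_add_cancel (by omega)]
    rw [this]; omega
  obtain ⟨hε1, hε2⟩ := hL0 L (by omega)
  -- the threshold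
  obtain ⟨T, hT⟩ : ∃ T, T = 2 ^ (2 * L / (8 * b) + 1) := ⟨_, rfl⟩
  have hT1 : 1 ≤ T := by rw [hT]; exact Nat.one_le_two_pow
  have hTpos : (0 : ℝ) < T := by exact_mod_cast hT1
  have hnpos : (0 : ℝ) < n := by exact_mod_cast hn1
  have hTM : n ^ 2 ≤ T ^ (8 * b) := by
    have h1 : n ^ 2 ≤ (2 ^ L) ^ 2 := Nat.pow_le_pow_left hUp.le 2
    refine h1.trans ?_
    rw [hT, ← pow_mul, ← pow_mul]
    apply Nat.pow_le_pow_right (by norm_num)
    have h2 := Nat.div_add_mod (2 * L) (8 * b)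
    have h3 := Nat.mod_lt (2 * L) (show 0 < 8 * b by omega)
    nlinarith
  have hT4 : T ^ (4 * b) ≤ 2 ^ (4 * b) * 2 ^ L := by
    rw [hT, ← pow_mul, ← pow_add]
    apply Nat.pow_le_pow_right (by norm_num)
    have h2 := Nat.mul_div_le (2 * L) (8 * b)
    nlinarith
  have P : Par n (1 - 1 / (16 * (b : ℝ))) (1 / (T : ℝ)) (8 * b - 1) := by
    have hm : 8 * b - 1 + 1 = 8 * b := by omega
    refine ⟨hn1, ?_, ?_, ?_, ?_, ?_, ?_⟩
    · rw [sub_nonneg, div_le_one (by positivity)]; linarith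
    · have : 0 ≤ 1 / (16 * (b : ℝ)) := by positivity
      linarith
    · rw [hm]
      have h1 := one_add_mul_le_pow (R := ℝ) (a := -(1 / (16 * (b : ℝ)))) (by
        have : 1 / (16 * (b : ℝ)) ≤ 1 := by
          rw [div_le_one (by positivity)]; linarith
        linarith) (8 * b)
      have h2 : (1 : ℝ) + ((8 * b : ℕ) : ℝ) * (-(1 / (16 * (b : ℝ)))) = 1 / 2 := by
        push_cast; field_simp; norm_num
      rw [h2] at h1
      rw [sub_eq_add_neg]; exact h1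
    · positivity
    · rw [div_le_one hTpos]; exact_mod_cast hT1
    · rw [hm, div_pow, one_pow]
      apply one_div_le_one_div_of_le (by positivity)
      exact_mod_cast hTM
  have hsub : 256 * b ^ 2 * (3 * L) + 2 * L ≤ D := by
    refine le_trans (le_of_eq ?_) hD
    ring
  refine family_wrong (d := 256 * b ^ 2 * (3 * L)) P (T * (4 * L)) L hUp.le hsub hr C ?_ ?_
  · intro u
    have hs2 : numAnd (C u) ≤ n ^ 2 := by
      have h1 : numAnd (C u) ^ b ≤ (n ^ 2) ^ b := by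
        refine (hC u).trans ?_
        rw [← pow_mul]
        exact Nat.pow_le_pow_right hn1 (by omega)
      exact (Nat.pow_le_pow_iff_left (by omega)).1 h1
    have hs3 : (numAnd (C u) : ℝ) ≤ (2 : ℝ) ^ (2 * L) := by
      have h1 : numAnd (C u) ≤ 2 ^ (2 * L) := by
        refine hs2.trans ?_
        rw [mul_comm, pow_mul]
        exact Nat.pow_le_pow_left hUp.le 2
      exact_mod_cast h1
    have hn3 : (n : ℝ) ^ 2 ≤ (2 : ℝ) ^ (2 * L) := by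
      have h1 : n ^ 2 ≤ 2 ^ (2 * L) := by
        rw [mul_comm, pow_mul]
        exact Nat.pow_le_pow_left hUp.le 2
      exact_mod_cast h1
    have e1 : (1 - 1 / (T : ℝ)) ^ (T * (4 * L)) ≤ (1 / 2 : ℝ) ^ (4 * L) := pow_half T hT1 (4 * L)
    have e2 : (1 - (1 - (1 - 1 / (16 * (b : ℝ)))) ^ 2) ^ (256 * b ^ 2 * (3 * L))
        ≤ (1 / 2 : ℝ) ^ (3 * L) := by
      have h1 := pow_half (256 * b ^ 2) (by nlinarith) (3 * L)
      have h2 : (1 : ℝ) - (1 - (1 - 1 / (16 * (b : ℝ)))) ^ 2 = 1 - 1 / ((256 * b ^ 2 : ℕ) : ℝ) := by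
        push_cast
        have : (1 - (1 - 1 / (16 * (b : ℝ)))) = 1 / (16 * (b : ℝ)) := by ring
        rw [this, div_pow, mul_pow]
        norm_num
      rw [h2]; exact h1
    have hhalf : (1 / 2 : ℝ) ^ L ≤ 1 / 16 := by
      have h1 : (1 / 2 : ℝ) ^ L ≤ (1 / 2 : ℝ) ^ 4 :=
        pow_le_pow_of_le_one (by norm_num) (by norm_num) (by omega)
      refine h1.trans (by norm_num)
    have hx : (2 : ℝ) ^ (2 * L) * (1 / 2 : ℝ) ^ (4 * L) ≤ (1 / 2 : ℝ) ^ L := by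
      have h1 : (2 : ℝ) ^ (2 * L) * (1 / 2 : ℝ) ^ (4 * L) = (1 / 2 : ℝ) ^ (2 * L) := by
        have : 4 * L = 2 * L + 2 * L := by ring
        rw [this, pow_add, ← mul_assoc, ← mul_pow]
        norm_num
      rw [h1]
      exact pow_le_pow_of_le_one (by norm_num) (by norm_num) (by omega)
    have hy : (2 : ℝ) ^ (2 * L) * (1 / 2 : ℝ) ^ (3 * L) ≤ (1 / 2 : ℝ) ^ L := by
      have h1 : (2 : ℝ) ^ (2 * L) * (1 / 2 : ℝ) ^ (3 * L) = (1 / 2 : ℝ) ^ L := by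
        have : 3 * L = 2 * L + L := by ring
        rw [this, pow_add, ← mul_assoc, ← mul_pow]
        norm_num
      rw [h1]
    have hz : (1 / 2 : ℝ) ^ (4 * L) ≤ (1 / 2 : ℝ) ^ L :=
      pow_le_pow_of_le_one (by norm_num) (by norm_num) (by omega)
    have hτ0 : (0 : ℝ) ≤ 1 - 1 / (T : ℝ) := by
      rw [sub_nonneg, div_le_one hTpos]; exact_mod_cast hT1
    have f1 : (numAnd (C u) : ℝ) * (2 * (1 - 1 / (T : ℝ)) ^ (T * (4 * L)))
        ≤ 2 * (1 / 2 : ℝ) ^ L := by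
      calc (numAnd (C u) : ℝ) * (2 * (1 - 1 / (T : ℝ)) ^ (T * (4 * L)))
          ≤ (2 : ℝ) ^ (2 * L) * (2 * (1 / 2 : ℝ) ^ (4 * L)) := by
            apply mul_le_mul hs3 _ (by positivity) (by positivity)
            linarith
        _ = 2 * ((2 : ℝ) ^ (2 * L) * (1 / 2 : ℝ) ^ (4 * L)) := by ring
        _ ≤ 2 * (1 / 2 : ℝ) ^ L := by linarith
    have hq0 : (0 : ℝ) ≤ (1 - (1 - (1 - 1 / (16 * (b : ℝ)))) ^ 2) ^ (256 * b ^ 2 * (3 * L)) := by
      apply pow_nonneg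
      have : (1 - (1 - 1 / (16 * (b : ℝ)))) = 1 / (16 * (b : ℝ)) := by ring
      rw [this, sub_nonneg]
      apply pow_le_one₀ (by positivity)
      rw [div_le_one (by positivity)]; linarith
    have f2 : (n : ℝ) ^ 2 * (1 - (1 - (1 - 1 / (16 * (b : ℝ)))) ^ 2) ^ (256 * b ^ 2 * (3 * L))
        ≤ (1 / 2 : ℝ) ^ L :=
      (mul_le_mul hn3 e2 hq0 (by positivity)).trans hy
    linarith
  · intro u
    obtain ⟨Bn, hBn⟩ : ∃ Bn, Bn = max (numAnd (C u)) 1 := ⟨_, rfl⟩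
    have hB1 : 1 ≤ Bn := by rw [hBn]; exact le_max_right _ _
    have hBs : numAnd (C u) ≤ Bn := by rw [hBn]; exact le_max_left _ _
    have hBb : Bn ^ b ≤ n ^ a := by
      rw [hBn]
      rcases le_total (numAnd (C u)) 1 with h | h
      · rw [max_eq_right h, one_pow]; exact Nat.one_le_pow _ _ hn1
      · rw [max_eq_left h]; exact hC u
    have hkey : (Bn : ℝ) * (T : ℝ) ^ 2 ≤ 16 * ρ ^ L * (n : ℝ) ^ 2 := by
      have hne : 2 * b ≠ 0 := by omega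
      refine (pow_le_pow_iff_left₀ (by positivity) (by positivity) hne).1 ?_
      have h1 : ((Bn : ℝ) * (T : ℝ) ^ 2) ^ (2 * b) = ((Bn : ℝ) ^ b) ^ 2 * (T : ℝ) ^ (4 * b) := by
        rw [mul_pow, ← pow_mul, ← pow_mul]
        congr 2 <;> ring
      have h2 : (16 * ρ ^ L * (n : ℝ) ^ 2) ^ (2 * b)
          = (16 : ℝ) ^ (2 * b) * (1 / 2) ^ L * (n : ℝ) ^ (4 * b) := by
        rw [mul_pow, mul_pow, ← pow_mul, mul_comm L, pow_mul ρ, hρ, ← pow_mul]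
        congr 2
        ring
      rw [h1, h2]
      have h3 : ((Bn : ℝ) ^ b) ^ 2 ≤ (n : ℝ) ^ (2 * a) := by
        have : (Bn : ℝ) ^ b ≤ (n : ℝ) ^ a := by exact_mod_cast hBb
        calc ((Bn : ℝ) ^ b) ^ 2 ≤ ((n : ℝ) ^ a) ^ 2 := pow_le_pow_left₀ (by positivity) this 2
          _ = _ := by rw [← pow_mul]; congr 1; ring
      have h4 : (T : ℝ) ^ (4 * b) ≤ (2 : ℝ) ^ (4 * b) * (2 : ℝ) ^ L := by exact_mod_cast hT4
      have h5 : (2 : ℝ) ^ L * (2 : ℝ) ^ L * (n : ℝ) ^ (2 * a)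
          ≤ (2 : ℝ) ^ (4 * b) * (n : ℝ) ^ (4 * b) := by
        have h6 : (2 : ℝ) ^ L ≤ 2 * n := by exact_mod_cast h2n
        have h7 : (4 : ℝ) ≤ (2 : ℝ) ^ (4 * b) := by
          calc (4 : ℝ) = (2 : ℝ) ^ 2 := by norm_num
            _ ≤ (2 : ℝ) ^ (4 * b) := pow_le_pow_right₀ (by norm_num) (by omega)
        calc (2 : ℝ) ^ L * (2 : ℝ) ^ L * (n : ℝ) ^ (2 * a)
            ≤ (2 * n) * (2 * n) * (n : ℝ) ^ (2 * a) := by gcongr
          _ = 4 * (n : ℝ) ^ (2 * a + 2) := by ring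
          _ ≤ (2 : ℝ) ^ (4 * b) * (n : ℝ) ^ (4 * b) := by
            apply mul_le_mul h7 _ (by positivity) (by positivity)
            exact pow_le_pow_right₀ (by exact_mod_cast hn1) (by omega)
      have h8 : (2 : ℝ) ^ L * (1 / 2) ^ L = 1 := by
        rw [← mul_pow]; norm_num
      have h9 : (16 : ℝ) ^ (2 * b) = (2 : ℝ) ^ (4 * b) * (2 : ℝ) ^ (4 * b) := by
        rw [← pow_add]
        have : (16 : ℝ) = (2 : ℝ) ^ 4 := by norm_num
        rw [this, ← pow_mul]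
        congr 1; ring
      calc ((Bn : ℝ) ^ b) ^ 2 * (T : ℝ) ^ (4 * b)
          ≤ (n : ℝ) ^ (2 * a) * ((2 : ℝ) ^ (4 * b) * (2 : ℝ) ^ L) := by
            apply mul_le_mul h3 h4 (by positivity) (by positivity)
        _ = (2 : ℝ) ^ (4 * b) * ((2 : ℝ) ^ L * (n : ℝ) ^ (2 * a)) * ((2 : ℝ) ^ L * (1 / 2) ^ L) := by
            rw [h8]; ring
        _ = (2 : ℝ) ^ (4 * b) * (1 / 2) ^ L * ((2 : ℝ) ^ L * (2 : ℝ) ^ L * (n : ℝ) ^ (2 * a)) := by
            ring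
        _ ≤ (2 : ℝ) ^ (4 * b) * (1 / 2) ^ L * ((2 : ℝ) ^ (4 * b) * (n : ℝ) ^ (4 * b)) := by
            apply mul_le_mul_of_nonneg_left h5 (by positivity)
        _ = _ := by rw [h9]; ring
    have hB1' : (1 : ℝ) ≤ Bn := by exact_mod_cast hB1
    have hBs' : (numAnd (C u) : ℝ) ≤ Bn := by exact_mod_cast hBs
    have hT1' : (1 : ℝ) ≤ T := by exact_mod_cast hT1
    obtain ⟨w, hw⟩ : ∃ w : ℝ, w = (T : ℝ) ^ 2 / (n : ℝ) ^ 2 := ⟨_, rfl⟩
    have hw0 : 0 ≤ w := by rw [hw]; positivity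
    have hBw : (Bn : ℝ) * w ≤ 16 * ρ ^ L := by
      rw [hw, ← mul_div_assoc, div_le_iff₀ (by positivity)]
      exact hkey
    have hww : w ≤ 16 * ρ ^ L := by
      refine le_trans ?_ hBw
      nlinarith
    have hinv : 1 / (n : ℝ) ^ 2 ≤ w := by
      rw [hw]
      apply div_le_div_of_nonneg_right _ (by positivity)
      nlinarith
    have g1 : (numAnd (C u) : ℝ) * ((4 + ((T * (4 * L) : ℕ) : ℝ) ^ 2) / (n : ℝ) ^ 2)
        ≤ 64 * ρ ^ L + 256 * ((L : ℝ) ^ 2 * ρ ^ L) := by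
      have e1 : (4 + ((T * (4 * L) : ℕ) : ℝ) ^ 2) / (n : ℝ) ^ 2
          = 4 * (1 / (n : ℝ) ^ 2) + 16 * (L : ℝ) ^ 2 * w := by
        rw [hw]; push_cast; ring
      rw [e1]
      have e2 : 4 * (1 / (n : ℝ) ^ 2) + 16 * (L : ℝ) ^ 2 * w ≤ (4 + 16 * (L : ℝ) ^ 2) * w := by
        linarith
      have e3 : 0 ≤ 4 * (1 / (n : ℝ) ^ 2) + 16 * (L : ℝ) ^ 2 * w := by positivity
      calc (numAnd (C u) : ℝ) * (4 * (1 / (n : ℝ) ^ 2) + 16 * (L : ℝ) ^ 2 * w)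
          ≤ (Bn : ℝ) * ((4 + 16 * (L : ℝ) ^ 2) * w) := by
            apply mul_le_mul hBs' e2 e3 (by positivity)
        _ = (4 + 16 * (L : ℝ) ^ 2) * ((Bn : ℝ) * w) := by ring
        _ ≤ (4 + 16 * (L : ℝ) ^ 2) * (16 * ρ ^ L) := by
            apply mul_le_mul_of_nonneg_left hBw (by positivity)
        _ = _ := by ring
    have g2 : 2 / (n : ℝ) ^ 2 ≤ 32 * ρ ^ L := by
      have : 2 / (n : ℝ) ^ 2 = 2 * (1 / (n : ℝ) ^ 2) := by ring
      rw [this]; linarith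
    have g3 : ((T * (4 * L) : ℕ) : ℝ) / n ≤ 1 / 12 := by
      by_contra hc
      have hc' : 1 / 12 < ((T * (4 * L) : ℕ) : ℝ) / n := not_le.1 hc
      have h1 : (((T * (4 * L) : ℕ) : ℝ) / n) ^ 2 = 16 * ((L : ℝ) ^ 2 * w) := by
        rw [hw]; push_cast; ring
      have h2 : (L : ℝ) ^ 2 * w ≤ (L : ℝ) ^ 2 * (16 * ρ ^ L) := by
        apply mul_le_mul_of_nonneg_left hww (by positivity)
      have h3 : (1 / 12 : ℝ) ^ 2 < (((T * (4 * L) : ℕ) : ℝ) / n) ^ 2 :=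
        pow_lt_pow_left₀ hc' (by norm_num) (by norm_num)
      have h4 : (L : ℝ) ^ 2 * (16 * ρ ^ L) = 16 * ((L : ℝ) ^ 2 * ρ ^ L) := by ring
      rw [h1] at h3
      rw [h4] at h2
      norm_num at h3
      linarith
    linarith

/-- Polynomials in `L` are eventually below `2 ^ (L - 1)`. -/
theorem poly_le_pow (c K e f : ℕ) : ∃ L0 : ℕ, ∀ L ≥ L0, (c * (K * L + 1) ^ e) ^ f ≤ 2 ^ (L - 1) := by
  obtain ⟨Z, hZ⟩ : ∃ Z : ℕ, Z = (c * (K + 1) ^ e) ^ f := ⟨_, rfl⟩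
  have h := tendsto_pow_const_mul_const_pow_of_abs_lt_one (r := (1 / 2 : ℝ)) (e * f)
    (by rw [abs_of_pos] <;> norm_num)
  have h2 := h.eventually (gt_mem_nhds (show (0 : ℝ) < 1 / (2 * (Z + 1)) by positivity))
  obtain ⟨L1, hL1⟩ := Filter.eventually_atTop.1 h2
  refine ⟨L1 + 1, fun L hL => ?_⟩
  have hLpos : 1 ≤ L := by omega
  have h3 := hL1 L (by omega)
  have h4 : (c * (K * L + 1) ^ e) ^ f ≤ Z * L ^ (e * f) := by
    have h5 : K * L + 1 ≤ (K + 1) * L := by nlinarith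
    calc (c * (K * L + 1) ^ e) ^ f ≤ (c * ((K + 1) * L) ^ e) ^ f := by gcongr
      _ = Z * L ^ (e * f) := by
        rw [hZ, mul_pow (K + 1), ← mul_assoc, mul_pow, ← pow_mul]
  refine h4.trans ?_
  have h5 : (Z : ℝ) * (L : ℝ) ^ (e * f) ≤ (2 : ℝ) ^ (L - 1) := by
    have h6 : (2 : ℝ) ^ L = 2 * 2 ^ (L - 1) := by
      rw [← pow_succ', Nat.sub_add_cancel hLpos]
    have h7 : (L : ℝ) ^ (e * f) * (1 / 2) ^ L * (2 * (Z + 1)) < 1 := by
      rw [lt_div_iff₀ (by positivity)] at h3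
      exact h3
    have h8 : (1 / 2 : ℝ) ^ L * 2 ^ L = 1 := by rw [← mul_pow]; norm_num
    have h9 : (L : ℝ) ^ (e * f) * (2 * (Z + 1)) < 2 ^ L := by
      have h10 : (0 : ℝ) < 2 ^ L := by positivity
      calc (L : ℝ) ^ (e * f) * (2 * (Z + 1))
          = (L : ℝ) ^ (e * f) * (1 / 2) ^ L * (2 * (Z + 1)) * 2 ^ L := by
            rw [show (L : ℝ) ^ (e * f) * (1 / 2) ^ L * (2 * (Z + 1)) * 2 ^ L
              = (L : ℝ) ^ (e * f) * (2 * (Z + 1)) * ((1 / 2) ^ L * 2 ^ L) by ring, h8, mul_one]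
        _ < 1 * 2 ^ L := by
            apply mul_lt_mul_of_pos_right h7 h10
        _ = 2 ^ L := one_mul _
    have h11 : (0 : ℝ) ≤ (L : ℝ) ^ (e * f) := by positivity
    nlinarith
  exact_mod_cast h5

/-- **The Orthogonal Vectors hypothesis for randomized monotone circuits.** -/
theorem result (a b : ℕ) (hab : a < 2 * b) :
    ∃ K : ℕ, ∀ c e : ℕ, ∃ N : ℕ, ∀ n d : ℕ, N ≤ n → d = K * (Nat.log 2 n + 1) →
      ∀ r > 0, ∀ C : Fin r → Circ n d,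
      (∀ u, numAnd (C u) ^ b ≤ n ^ a * (c * (d + 1) ^ e) ^ b) →
      ∃ A B : Fin n → Fin d → Bool, Function.Injective A ∧ Function.Injective B ∧
        r < 3 * ({u | ¬ (accepts (C u) A B ↔ OVyes A B)} : Set (Fin r)).ncard := by
  obtain ⟨K, N, hKN⟩ := main (2 * a + 1) (2 * b) (by omega)
  refine ⟨K, fun c e => ?_⟩
  obtain ⟨L0, hL0⟩ := poly_le_pow c K e (2 * b)
  refine ⟨max N (2 ^ L0), ?_⟩
  rintro n d hn rfl r hr C hC
  have hnN : N ≤ n := le_trans (le_max_left _ _) hn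
  have hn2 : 2 ^ L0 ≤ n := le_trans (le_max_right _ _) hn
  have hn1 : 1 ≤ n := le_trans Nat.one_le_two_pow hn2
  refine hKN n hnN _ le_rfl r hr C (fun u => ?_)
  have hlog : L0 ≤ Nat.log 2 n := by
    exact (Nat.le_log_iff_pow_le (by norm_num) (by omega)).2 hn2
  have h1 := hL0 (Nat.log 2 n + 1) (by omega)
  rw [Nat.add_sub_cancel] at h1
  have h2 : (c * (K * (Nat.log 2 n + 1) + 1) ^ e) ^ (2 * b) ≤ n :=
    h1.trans (Nat.pow_log_le_self 2 (by omega))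
  calc numAnd (C u) ^ (2 * b) = (numAnd (C u) ^ b) ^ 2 := pow_mul' _ 2 b
    _ ≤ (n ^ a * (c * (K * (Nat.log 2 n + 1) + 1) ^ e) ^ b) ^ 2 := Nat.pow_le_pow_left (hC u) 2
    _ = n ^ (2 * a) * (c * (K * (Nat.log 2 n + 1) + 1) ^ e) ^ (2 * b) := by
      rw [mul_pow, pow_mul' n 2 a, pow_mul' _ 2 b]
    _ ≤ n ^ (2 * a) * n := Nat.mul_le_mul_left _ h2
    _ = n ^ (2 * a + 1) := by rw [pow_succ]

end Pool.Agent.Results.MP_0f984e_lc.MonotoneOV
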