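import Pool.Agent.H596R2.D3R.OVFinal

/-!
The Orthogonal Vectors hypothesis holds for bounded-error randomised depth three circuits.
-/

namespace Pool.Agent.Results.MP_0f984e_lc.RandomizedDepthThree

open Pool.Agent.H596R2.D3 Pool.Agent.H596R2.D3R

theorem result :
    (∀ ε > (0 : ℝ), ∀ δ > (0 : ℝ), ∃ c : ℝ, 0 < c ∧ ∀ n d : ℕ, 2 ≤ n → (n : ℝ) ^ δ ≤ d →
      ∀ (L : Type) [Fintype L] (w : L → ℝ) (C : L → Circuit (OVBit n d) 3),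
        (∀ l, 0 ≤ w l) → ∑ l, w l = 1 →
        (∀ z, Valid z → 1 / 2 + ε ≤ success w C z (OV z)) →
        ∃ l, 0 < w l ∧ c * (n : ℝ) ^ 2 / Real.log n ^ 2 ≤ (C l).size) ∧
    ∀ a b : ℕ, 0 < b → a < 2 * b → ∀ K k : ℕ,
      ∃ n d : ℕ, ¬ ∃ (L : Type) (_ : Fintype L) (w : L → ℝ) (C : L → Circuit (OVBit n d) 3),
        (∀ l, 0 ≤ w l) ∧ ∑ l, w l = 1 ∧
        (∀ z, Valid z → 2 / 3 ≤ success w C z (OV z)) ∧
        ∀ l, ((C l).size : ℝ) ≤ K * (n : ℝ) ^ ((a : ℝ) / b) * ((d : ℝ) + 1) ^ k :=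
  ⟨fun ε hε δ hδ => ov_main ε δ hε hδ, fun a b hb hab K k => ov_q1 a b hb hab K k⟩

end Pool.Agent.Results.MP_0f984e_lc.RandomizedDepthThree
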