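import Mathlib
import Pool.Agent.H592R3.MobOv

/-!
Randomized small-depth circuits for orthogonal vectors of polylogarithmic dimension need
`N ^ (2 - ε)` gates.
-/

open SmallDepth DomAC0 Filter H592R3

theorem Pool.Agent.Results.MP_0f984e_lc.SmallDepth.result :
    (∀ ε : ℝ, 0 < ε → ∃ C : ℝ, 0 < C ∧ ∀ N D d S : ℕ, 4 ≤ N → 1 ≤ d →
      C * (d * Real.log (Real.logb 2 N)) ≤ Real.logb 2 N →
      (Real.logb 2 N) ^ (C * d) ≤ D →
      ∀ R : RandCircuit (OvBits N D), R.Bounded d S →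
      (∀ x : OvBits N D → Bool, OvDistinct x → OvUnique x → R.Correct x (OvYes x)) →
      (N : ℝ) ^ (2 - ε) < S) ∧
    (∀ a b d : ℕ, a < 2 * b → ∃ K : ℕ, ∀ c e : ℕ, ∀ᶠ N : ℕ in atTop, ∀ D : ℕ,
      D = (Nat.clog 2 N) ^ K →
      ¬ ∃ S : ℕ, (S : ℝ) ≤ (N : ℝ) ^ ((a : ℝ) / b) * (c * ((D : ℝ) + 1) ^ e) ∧
        ∃ R : RandCircuit (OvBits N D), R.Bounded d S ∧
          ∀ x : OvBits N D → Bool, OvDistinct x → R.Correct x (OvYes x)) := by
  refine ⟨fun ε hε => ov_lower2 ε hε, ?_⟩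
  intro a b d hab
  have hb : (0 : ℝ) < b := by exact_mod_cast (by omega : 0 < b)
  have habR : (a : ℝ) / b < 2 := by rw [div_lt_iff₀ hb]; exact_mod_cast hab
  obtain ⟨ε, hε⟩ : ∃ ε : ℝ, ε = (2 - (a : ℝ) / b) / 2 := ⟨_, rfl⟩
  have hε0 : 0 < ε := by rw [hε]; linarith
  obtain ⟨C, hC, hlow⟩ := ov_lower2 ε hε0
  have hd1 : (1 : ℝ) ≤ ((max d 1 : ℕ) : ℝ) := by exact_mod_cast le_max_right d 1
  obtain ⟨K, hK⟩ : ∃ K : ℕ, K = ⌈C * ((max d 1 : ℕ) : ℝ)⌉₊ := ⟨_, rfl⟩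
  refine ⟨K, ?_⟩
  intro c e
  have hlogb : Tendsto (fun N : ℕ => Real.logb 2 (N : ℝ)) atTop atTop :=
    (Real.tendsto_logb_atTop (by norm_num)).comp tendsto_natCast_atTop_atTop
  -- the depth is small
  have hA : ∀ᶠ x : ℝ in atTop, C * (((max d 1 : ℕ) : ℝ) * Real.log x) ≤ x := by
    obtain ⟨A, hA⟩ : ∃ A : ℝ, A = C * ((max d 1 : ℕ) : ℝ) := ⟨_, rfl⟩
    have hA0 : 0 < A := by rw [hA]; positivity
    filter_upwards [Real.isLittleO_log_id_atTop.bound (c := 1 / A) (by positivity),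
      eventually_ge_atTop 1] with x hx hx1
    rw [Real.norm_of_nonneg (Real.log_nonneg hx1), id_eq,
      Real.norm_of_nonneg (by linarith)] at hx
    calc C * (((max d 1 : ℕ) : ℝ) * Real.log x) = A * Real.log x := by rw [hA]; ring
      _ ≤ A * (1 / A * x) := by gcongr
      _ = x := by field_simp
  -- the polynomial factor is small
  have hB : ∀ᶠ x : ℝ in atTop, (c : ℝ) * ((x + 1) ^ K + 1) ^ e ≤ 2 ^ (ε * x) := by
    obtain ⟨q, hq⟩ : ∃ q : ℕ, q = 1 + (2 * K + 1) * e := ⟨_, rfl⟩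
    have h1 : (0 : ℝ) < ε * Real.log 2 := mul_pos hε0 (Real.log_pos (by norm_num))
    have h2 := (isLittleO_pow_exp_pos_mul_atTop q h1).bound (c := 1) (by norm_num)
    filter_upwards [h2, eventually_ge_atTop (max (c : ℝ) 2)] with x hx hx1
    have hxc : (c : ℝ) ≤ x := (le_max_left _ _).trans hx1
    have hx2 : (2 : ℝ) ≤ x := (le_max_right _ _).trans hx1
    rw [Real.norm_of_nonneg (by positivity), Real.norm_of_nonneg (by positivity), one_mul] at hx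
    have e1 : Real.exp (ε * Real.log 2 * x) = 2 ^ (ε * x) := by
      rw [Real.rpow_def_of_pos (by norm_num)]; ring_nf
    rw [e1] at hx
    refine le_trans ?_ hx
    have h3 : x + 1 ≤ x ^ 2 := by nlinarith
    have h4 : (x + 1) ^ K + 1 ≤ x ^ (2 * K + 1) := by
      have h5 : (x + 1) ^ K ≤ x ^ (2 * K) := by
        rw [pow_mul]; gcongr
      have h6 : 1 ≤ x ^ (2 * K) := one_le_pow₀ (by linarith)
      rw [pow_succ]
      nlinarith
    calc (c : ℝ) * ((x + 1) ^ K + 1) ^ e ≤ x * (x ^ (2 * K + 1)) ^ e := by gcongr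
      _ = x ^ q := by rw [← pow_mul, hq, pow_add, pow_one]
  filter_upwards [hlogb.eventually hA, hlogb.eventually hB,
    hlogb.eventually (eventually_ge_atTop 1), eventually_ge_atTop 4] with N h1 h2 h3 h4
  intro D hD
  obtain ⟨L, hL⟩ : ∃ L : ℝ, L = Real.logb 2 N := ⟨_, rfl⟩
  rw [← hL] at h1 h2 h3
  have hN0 : (0 : ℝ) < N := by exact_mod_cast (by omega : 0 < N)
  have hN : (N : ℝ) = 2 ^ L := by
    rw [hL, Real.rpow_logb (by norm_num) (by norm_num) hN0]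
  have hcl1 : L ≤ (Nat.clog 2 N : ℝ) := by
    have h10 : (N : ℝ) ≤ 2 ^ (Nat.clog 2 N) := by
      exact_mod_cast Nat.le_pow_clog (by norm_num) N
    rw [hL, Real.logb_le_iff_le_rpow (by norm_num) hN0, Real.rpow_natCast]
    exact h10
  have hcl2 : (Nat.clog 2 N : ℝ) ≤ L + 1 := by
    have h5 : 2 ^ Nat.clog 2 N < 2 * N := by
      have h5 := Nat.pow_pred_clog_lt_self (b := 2) (by norm_num) (by omega : 1 < N)
      have h6 : Nat.clog 2 N = (Nat.clog 2 N).pred + 1 := by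
        have := Nat.clog_pos (b := 2) (by norm_num) (by omega : 2 ≤ N)
        exact (Nat.succ_pred_eq_of_pos this).symm
      rw [h6, pow_succ]
      omega
    have h6 : (2 : ℝ) ^ (Nat.clog 2 N : ℝ) ≤ 2 ^ (L + 1) := by
      rw [Real.rpow_natCast, Real.rpow_add (by norm_num), ← hN, Real.rpow_one]
      have : (2 : ℝ) ^ Nat.clog 2 N ≤ 2 * N := by exact_mod_cast h5.le
      linarith
    exact (Real.rpow_le_rpow_left_iff (by norm_num)).1 h6
  rintro ⟨S, hS, R, hR, hcor⟩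
  have hmain := hlow N D (max d 1) S h4 (le_max_right _ _) (by rw [← hL]; exact h1) ?_ R
    (fun ω => ⟨(hR ω).1.trans (le_max_left _ _), (hR ω).2⟩) (fun x hx _ => hcor x hx)
  · have hDR : (D : ℝ) ≤ (L + 1) ^ K := by
      rw [hD]; push_cast; gcongr
    have hup : (S : ℝ) ≤ (N : ℝ) ^ (2 - ε) := by
      refine hS.trans ?_
      calc (N : ℝ) ^ ((a : ℝ) / b) * (c * ((D : ℝ) + 1) ^ e)
          ≤ (N : ℝ) ^ ((a : ℝ) / b) * (c * ((L + 1) ^ K + 1) ^ e) := by gcongr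
        _ ≤ (N : ℝ) ^ ((a : ℝ) / b) * 2 ^ (ε * L) := by gcongr
        _ = 2 ^ (L * ((a : ℝ) / b) + ε * L) := by
            rw [hN, ← Real.rpow_mul (by norm_num), ← Real.rpow_add (by norm_num)]
        _ = 2 ^ (L * (2 - ε)) := by
            congr 1
            have h9 : (a : ℝ) / b = 2 - 2 * ε := by rw [hε]; ring
            rw [h9]; ring
        _ = (N : ℝ) ^ (2 - ε) := by rw [hN, ← Real.rpow_mul (by norm_num)]
    linarith
  · rw [← hL, hD, Nat.cast_pow]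
    have h8 : C * ((max d 1 : ℕ) : ℝ) ≤ K := by rw [hK]; exact Nat.le_ceil _
    calc L ^ (C * ((max d 1 : ℕ) : ℝ)) ≤ L ^ (K : ℝ) :=
          Real.rpow_le_rpow_of_exponent_le h3 h8
      _ = L ^ K := Real.rpow_natCast _ _
      _ ≤ (Nat.clog 2 N : ℝ) ^ K := by gcongr
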