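import Pool.Agent.H550R2.LP.OVUp

set_option autoImplicit false

/-! # The orthogonal vectors hypothesis for symmetric linear programs

A linear program with `D` nonnegative variables over the input variables `I` is an affine space `L`
of pairs (input vector, vector of length `D`); it accepts an input vector `v` if `(v, y) ∈ L` for
some `y ≥ 0`. The input vector of an instance of orthogonal vectors consists of the `2 n d` bits of
the `n + n` vectors. The program is symmetric if each permutation `σ` of the vectors of the first
side, `τ` of the vectors of the second side and `κ` of the coordinates extends, by a permutation of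
the nonnegative variables, to an automorphism of the program. A random adaptive algorithm is a
probability distribution on decision trees whose tests are linear programs. -/

namespace Pool.Agent.Results.MP_0f984e_lc.SymmetricLP

open Pool.Agent.H550R2.Lin

/-- 1. For all `a < 2 b` there is `k` such that in dimension `d = dimOV k n`, which is
`(4 ⌊log₂ n⌋) ^ k + 5 ⌊log₂ n⌋ + 2`, random adaptive algorithms with symmetric linear programs
whose expected total number of nonnegative variables is at most `n ^ (a / b)` times a polynomial in
`d` do not decide orthogonal vectors with error probability at most `1 / 3`, for all large `n`,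
already for families of distinct vectors.
2. For all `n` and `d` a single symmetric linear program with `n ^ 2 * (3 * d + 1)` nonnegative
variables accepts exactly the instances without an orthogonal pair. -/
theorem result :
    (∀ a b : ℕ, 0 < b → a < 2 * b → ∃ k : ℕ,
      ∀ K : ℕ, ∃ n0 : ℕ, ∀ n : ℕ, n0 ≤ n → ∀ R : RLAlg (OVI (Fin n) (Fin (dimOV k n))),
        (∀ σ τ κ, R.Sym (gO σ τ κ)) →
        R.size ≤ K * ((dimOV k n : ℝ) + 1) ^ K * (n : ℝ) ^ ((a : ℝ) / b) → ¬ R.DecidesOV) ∧
    (∀ n d : ℕ, ∃ P : LP (OVI (Fin n) (Fin d)) (Fin (n ^ 2 * (3 * d + 1))),
      (∀ σ τ κ, ∃ π, P.IsAut (gO σ τ κ) π) ∧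
        ∀ u w : Fin n → Fin d → Bool, P.Acc (ovVec u w) ↔ ¬ Orth u w) :=
  ⟨ov_exact, ov_upper⟩

end Pool.Agent.Results.MP_0f984e_lc.SymmetricLP
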